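import Pool.Agent.Helper18.GP.Rate
import Pool.Agent.Helper87.GP.Lam
import Pool.Agent.Helper78.KD.DevU

/-!
# Multiples of a geometric progression with a transcendental ratio: definitions
-/

set_option autoImplicit false

namespace Pool.Agent.Helper78.KX

open MeasureTheory Set Filter Topology Pool.Agent.Helper18.GP Pool.Agent.Helper82.FK

/-- sums of a function along the multiples of a geometric progression -/
noncomputable def Sm (φ : ℝ → ℝ) (θ : ℝ) (s : ℕ → ℝ) (N : ℕ) (x : ℝ) : ℝ :=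
  ∑ n ∈ Finset.range N, φ (x * θ ^ (n + 1) + s n)

/-- `y` stays away from zero when at most `m` nonzero digits are appended -/
def Gd (θ : ℝ) (H : ℕ) : ℕ → ℝ → ℝ → Prop
  | 0, c, y => c ≤ |y|
  | m + 1, c, y => c ≤ |y| ∧
      ∀ (d : ℕ) (h : ℤ), h ≠ 0 → |h| ≤ H → Gd θ H m (c * θ ^ (d + 1)) (y * θ ^ (d + 1) + h)

end Pool.Agent.Helper78.KX
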