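import Pool.Agent.Helper78.KX.Defs

/-!
# Few digits
-/

set_option autoImplicit false

namespace Pool.Agent.Helper78.KX

open MeasureTheory Set Filter Topology Pool.Agent.Helper18.GP Pool.Agent.Helper82.FK

/-- after `D` steps every number with at most `k + 1` nonzero digits is large -/
def Few (θ : ℝ) (H k D : ℕ) : Prop :=
  ∃ c₀ : ℝ, 0 < c₀ ∧ 2 * H / (θ - 1) + 1 ≤ c₀ * θ ^ D ∧ ∀ h : ℤ, h ≠ 0 → |h| ≤ H → Gd θ H k c₀ h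

/-- few digits, with polynomially many values of the digits -/
def FewAll (θ : ℝ) : Prop :=
  ∀ k B : ℕ, ∃ δ₀ : ℝ, 0 < δ₀ ∧ ∀ δ : ℝ, 0 < δ → δ ≤ δ₀ → ∀ H : ℕ, (H : ℝ) ≤ (1 / δ) ^ B →
    ∃ D : ℕ, ((D : ℝ) + 1) ^ 2 * δ ≤ 1 ∧ Few θ (k * (H + 1)) k D

end Pool.Agent.Helper78.KX
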