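import Pool.Agent.Helper78.KX.Defs2

/-!
# Trigonometric polynomials: conversion
-/

set_option autoImplicit false

namespace Pool.Agent.Helper78.KX

open MeasureTheory Set Filter Topology Pool.Agent.Helper18.GP Pool.Agent.Helper82.FK

theorem trig_gp {φ : ℝ → ℝ} {S : Finset ℤ} {z : ℤ → ℂ} (hS : 0 ∉ S)
    (hφ : ∀ t : ℝ, (φ t : ℂ) = ∑ h ∈ S, z h * Complex.exp (2 * Real.pi * Complex.I * (h * t : ℝ))) :
    ∃ (H : ℕ) (c : ℤ → ℂ), (∀ t, gp H c t = φ t) ∧ c 0 = 0 := by
  classical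
  set H : ℕ := S.sup Int.natAbs with hH
  have hsub : S ⊆ Finset.Icc (-(H : ℤ)) H := by
    intro h hh
    have h1 : h.natAbs ≤ H := Finset.le_sup (f := Int.natAbs) hh
    rw [Finset.mem_Icc]
    omega
  refine ⟨H, fun h => if h ∈ S then z h else 0, fun t => ?_, by simp [hS]⟩
  unfold gp
  rw [hφ t, ← Finset.sum_subset hsub (f := fun h => (if h ∈ S then z h else 0) * e (h * t))
    (fun h _ hh => by simp only [if_neg hh, zero_mul])]
  refine Finset.sum_congr rfl fun h hh => ?_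
  rw [if_pos hh]
  unfold e
  congr 2
  push_cast
  ring

end Pool.Agent.Helper78.KX
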